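import Pool.Agent.H90.EH.Targets

namespace Pool.Agent.H33.EH
open Finset Pool.Agent.H90.EH Polynomial

lemma CPW_lin {ι : Type} [Fintype ι] [DecidableEq ι] (M : Matrix ι ι ℂ) (a : ℂ) :
    (aeval M (X - C a)).det = (M.charpoly.roots.map (fun z => (X - C a).eval z)).prod := by
  have h1 : (aeval M (X - C a)) = M - Matrix.scalar ι a := by
    rw [map_sub, aeval_X, aeval_C]
    rfl
  have h2 : M.charpoly = (M.charpoly.roots.map (fun z => X - C z)).prod :=
    (IsAlgClosed.splits M.charpoly).eq_prod_roots_of_monic M.charpoly_monic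
  have h3 : (Matrix.scalar ι a - M).det = (M.charpoly.roots.map (fun z => a - z)).prod := by
    rw [← Matrix.eval_charpoly]
    conv_lhs => rw [h2]
    rw [eval_multiset_prod, Multiset.map_map]
    congr 1
    refine Multiset.map_congr rfl fun z _ => ?_
    simp
  have h4 : Multiset.card M.charpoly.roots = Fintype.card ι := by
    rw [← (IsAlgClosed.splits M.charpoly).natDegree_eq_card_roots, Matrix.charpoly_natDegree_eq_dim]
  have h5 : M - Matrix.scalar ι a = -(Matrix.scalar ι a - M) := by abel
  have h6 : M.charpoly.roots.map (fun z => (X - C a).eval z) =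
      M.charpoly.roots.map (fun z => (-1) * (a - z)) := by
    refine Multiset.map_congr rfl fun z _ => ?_
    simp
  rw [h1, h5, Matrix.det_neg, h3, h6, Multiset.prod_map_mul]
  congr 1
  rw [Multiset.map_const', Multiset.prod_replicate, h4]

lemma CPW_prod {ι : Type} [Fintype ι] [DecidableEq ι] (M : Matrix ι ι ℂ) (s : Multiset ℂ) :
    (aeval M (s.map (fun a => X - C a)).prod).det =
      (M.charpoly.roots.map (fun z => ((s.map (fun a => X - C a)).prod).eval z)).prod := by
  induction s using Multiset.induction_on with
  | empty => simp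
  | cons a s ih =>
    rw [Multiset.map_cons, Multiset.prod_cons, map_mul, Matrix.det_mul, ih, CPW_lin,
      ← Multiset.prod_map_mul]
    congr 1
    refine Multiset.map_congr rfl fun z _ => ?_
    rw [eval_mul]

lemma CPW_all {ι : Type} [Fintype ι] [DecidableEq ι] (M : Matrix ι ι ℂ) (f : ℂ[X]) :
    (aeval M f).det = (M.charpoly.roots.map (fun z => f.eval z)).prod := by
  have h4 : Multiset.card M.charpoly.roots = Fintype.card ι := by
    rw [← (IsAlgClosed.splits M.charpoly).natDegree_eq_card_roots, Matrix.charpoly_natDegree_eq_dim]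
  have h1 : f = C f.leadingCoeff * (f.roots.map (fun a => X - C a)).prod :=
    (IsAlgClosed.splits f).eq_prod_roots
  have h2 : ∀ z, f.eval z = f.leadingCoeff * ((f.roots.map (fun a => X - C a)).prod).eval z := by
    intro z
    conv_lhs => rw [h1]
    rw [eval_mul, eval_C]
  have h3 : (aeval M f).det = f.leadingCoeff ^ Fintype.card ι *
      (aeval M (f.roots.map (fun a => X - C a)).prod).det := by
    conv_lhs => rw [h1]
    rw [map_mul, Matrix.det_mul, aeval_C]
    congr 1
    rw [Matrix.algebraMap_eq_diagonal, Matrix.det_diagonal]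
    simp
  rw [h3, CPW_prod]
  simp only [h2]
  rw [Multiset.prod_map_mul, Multiset.map_const', Multiset.prod_replicate, h4]

/-- the eigenvalues of a power -/
theorem pf_CPW : T_CPW := by
  intro ι _ _ M k _
  have h1 : (M ^ k).charpoly = ((M.charpoly.roots.map (fun z => z ^ k)).map
      (fun z => X - C z)).prod := by
    refine Polynomial.funext fun c => ?_
    rw [Matrix.eval_charpoly]
    have h2 : Matrix.scalar ι c - M ^ k = aeval M (C c - X ^ k) := by
      rw [map_sub, aeval_C, map_pow, aeval_X]
      rfl
    rw [h2, CPW_all, eval_multiset_prod, Multiset.map_map, Multiset.map_map]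
    congr 1
    refine Multiset.map_congr rfl fun z _ => ?_
    simp
  rw [h1, roots_multiset_prod_X_sub_C]

end Pool.Agent.H33.EH
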