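import Pool.Agent.H90.EH.Targets

namespace Pool.Agent.H33.EH
open Finset Pool.Agent.H90.EH Polynomial

lemma CYK_prim {N a : ℕ} (hN : 0 < N) (hco : a.Coprime N) :
    (primitiveRoots N ℂ).val.map (fun z => z ^ a) = (primitiveRoots N ℂ).val := by
  classical
  have hinj : Set.InjOn (fun z : ℂ => z ^ a) (primitiveRoots N ℂ : Set ℂ) := by
    intro x hx y hy hxy
    have hx' : IsPrimitiveRoot x N := (mem_primitiveRoots hN).1 hx
    have hy' : IsPrimitiveRoot y N := (mem_primitiveRoots hN).1 hy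
    have hy0 : y ≠ 0 := hy'.ne_zero hN.ne'
    have h1 : (x / y) ^ a = 1 := by
      rw [div_pow, div_eq_one_iff_eq (pow_ne_zero _ hy0)]
      exact hxy
    have h2 : (x / y) ^ N = 1 := by rw [div_pow, hx'.pow_eq_one, hy'.pow_eq_one, div_one]
    have h3 : orderOf (x / y) ∣ 1 := by
      rw [← hco.gcd_eq_one]
      exact Nat.dvd_gcd (orderOf_dvd_of_pow_eq_one h1) (orderOf_dvd_of_pow_eq_one h2)
    have h4 : x / y = 1 := orderOf_eq_one_iff.1 (Nat.dvd_one.1 h3)
    exact (div_eq_one_iff_eq hy0).1 h4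
  rw [← Finset.image_val_of_injOn hinj]
  congr 1
  refine Finset.eq_of_subset_of_card_le ?_ ?_
  · intro z hz
    obtain ⟨x, hx, rfl⟩ := Finset.mem_image.1 hz
    exact (mem_primitiveRoots hN).2 (((mem_primitiveRoots hN).1 hx).pow_of_coprime a hco)
  · rw [Finset.card_image_of_injOn hinj]

lemma CYK_roots (p r a : ℕ) (hp : p.Prime) (ha : ¬ p ∣ a) (n : ℕ → ℕ) :
    ((∏ l ∈ range (r + 1), Polynomial.cyclotomic (p ^ l) ℂ ^ n l).roots).map (fun z => z ^ a) =
      (∏ l ∈ range (r + 1), Polynomial.cyclotomic (p ^ l) ℂ ^ n l).roots := by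
  have hne : ∏ l ∈ range (r + 1), Polynomial.cyclotomic (p ^ l) ℂ ^ n l ≠ 0 :=
    Finset.prod_ne_zero_iff.2 fun l _ => pow_ne_zero _ (cyclotomic_ne_zero _ _)
  rw [roots_prod _ _ hne, Multiset.map_bind]
  refine Multiset.bind_congr fun l _ => ?_
  have hN : 0 < p ^ l := pow_pos hp.pos l
  have : NeZero ((p ^ l : ℕ) : ℂ) := ⟨by exact_mod_cast hN.ne'⟩
  have hco : a.Coprime (p ^ l) :=
    Nat.Coprime.pow_right l ((Nat.Prime.coprime_iff_not_dvd hp).2 ha).symm
  rw [roots_pow, Multiset.map_nsmul, cyclotomic.roots_eq_primitiveRoots_val, CYK_prim hN hco]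

/-- powers prime to `p` -/
theorem pf_CYK (h1 : T_CPW) (h2 : T_CYF) : T_CYK := by
  intro ι _ _ M p r a hp hM ha
  have ha1 : 1 ≤ a := by
    rcases Nat.eq_zero_or_pos a with h | h
    · exact absurd (h ▸ dvd_zero p) ha
    · exact h
  rw [← Matrix.reverse_charpoly, ← Matrix.reverse_charpoly]
  congr 1
  have hinj : Function.Injective (Polynomial.map (Int.castRingHom ℂ)) :=
    Polynomial.map_injective _ Int.cast_injective
  apply hinj
  rw [← Matrix.charpoly_map, ← Matrix.charpoly_map]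
  have hpow : (M ^ a).map (Int.castRingHom ℂ) = (M.map (Int.castRingHom ℂ)) ^ a := by
    have := map_pow (RingHom.mapMatrix (m := ι) (Int.castRingHom ℂ)) M a
    simpa only [RingHom.mapMatrix_apply] using this
  rw [hpow]
  set M' : Matrix ι ι ℂ := M.map (Int.castRingHom ℂ) with hM'
  obtain ⟨n, hn⟩ := h2 ι M p r hp hM
  have hch : M'.charpoly = ∏ l ∈ range (r + 1), Polynomial.cyclotomic (p ^ l) ℂ ^ n l := by
    rw [hM', Matrix.charpoly_map, hn, Polynomial.map_prod]
    refine prod_congr rfl fun l _ => ?_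
    rw [Polynomial.map_pow, map_cyclotomic]
  have hr : (M' ^ a).charpoly.roots = M'.charpoly.roots := by
    rw [h1 ι M' a ha1, hch]
    exact CYK_roots p r a hp ha n
  rw [(IsAlgClosed.splits (M' ^ a).charpoly).eq_prod_roots_of_monic (M' ^ a).charpoly_monic,
    (IsAlgClosed.splits M'.charpoly).eq_prod_roots_of_monic M'.charpoly_monic, hr]

end Pool.Agent.H33.EH
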