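import Pool.Agent.H90.EH.Targets

namespace Pool.Agent.H33.EH
open Finset Pool.Agent.H90.EH
open scoped Classical

lemma PIV_expand {V : Type} [AddCommGroup V] [Module ℚ V] {A B : Finset V} {a b₀ : V}
    (hB : IsB A B) (ha : a ∈ A) (haB : a ∉ B) (hb₀ : b₀ ∈ B) (hne : co B a b₀ ≠ 0) {z : V}
    (hz : z ∈ Sp A) :
    z = ∑ x ∈ insert a (B.erase b₀), (if x = a then co B z b₀ / co B a b₀ else
      co B z x - co B z b₀ / co B a b₀ * co B a x) • x := by
  have haE : a ∉ B.erase b₀ := fun h => haB (mem_of_mem_erase h)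
  have h1 : z = ∑ b ∈ B, co B z b • b := co_spec (hB.sp ▸ hz)
  have h2 : a = ∑ b ∈ B, co B a b • b := co_spec (hB.2.2 a ha)
  set t : ℚ := co B z b₀ / co B a b₀ with ht
  have h3 : z - t • a = ∑ b ∈ B, (co B z b - t * co B a b) • b := by
    conv_lhs => rw [h1, h2]
    rw [smul_sum, ← sum_sub_distrib]
    refine sum_congr rfl fun b _ => ?_
    rw [sub_smul, mul_smul]
  have h4 : (co B z b₀ - t * co B a b₀) • b₀ = 0 := by
    rw [ht, div_mul_cancel₀ _ hne, sub_self, zero_smul]
  rw [← add_sum_erase B _ hb₀, h4, zero_add] at h3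
  rw [sum_insert haE, if_pos rfl]
  have h5 : ∑ x ∈ B.erase b₀, (if x = a then t else co B z x - t * co B a x) • x =
      ∑ x ∈ B.erase b₀, (co B z x - t * co B a x) • x := by
    refine sum_congr rfl fun x hx => ?_
    rw [if_neg]
    rintro rfl
    exact haE hx
  rw [h5, ← h3]
  abel

lemma PIV_ind {V : Type} [AddCommGroup V] [Module ℚ V] {A B : Finset V} {a b₀ : V}
    (hB : IsB A B) (ha : a ∈ A) (haB : a ∉ B) (hb₀ : b₀ ∈ B) (hne : co B a b₀ ≠ 0) :
    Ind (insert a (B.erase b₀)) := by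
  have haE : a ∉ B.erase b₀ := fun h => haB (mem_of_mem_erase h)
  have h2 : a = ∑ b ∈ B, co B a b • b := co_spec (hB.2.2 a ha)
  intro c hc
  rw [sum_insert haE] at hc
  have h3 : ∑ b ∈ B, (c a * co B a b + (if b = b₀ then 0 else c b)) • b = 0 := by
    have e1 : ∑ b ∈ B, (c a * co B a b + (if b = b₀ then 0 else c b)) • b =
        c a • ∑ b ∈ B, co B a b • b + ∑ b ∈ B, (if b = b₀ then (0 : ℚ) else c b) • b := by
      rw [smul_sum, ← sum_add_distrib]
      refine sum_congr rfl fun b _ => ?_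
      rw [add_smul, mul_smul]
    have e2 : ∑ b ∈ B, (if b = b₀ then (0 : ℚ) else c b) • b = ∑ b ∈ B.erase b₀, c b • b := by
      rw [← add_sum_erase B _ hb₀, if_pos rfl, zero_smul, zero_add]
      refine sum_congr rfl fun b hb => ?_
      rw [if_neg (ne_of_mem_erase hb)]
    rw [e1, e2, ← h2]
    exact hc
  have h4 := hB.2.1 _ h3
  have h5 : c a = 0 := by
    have := h4 b₀ hb₀
    simp only [if_true, add_zero] at this
    exact (mul_eq_zero.1 this).resolve_right hne
  intro b hb
  rcases mem_insert.1 hb with rfl | hb'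
  · exact h5
  · have := h4 b (mem_of_mem_erase hb')
    simp only [h5, zero_mul, zero_add, if_neg (ne_of_mem_erase hb')] at this
    exact this

/-- exchange of `b₀` by `a` -/
theorem pf_PIV : T_PIV := by
  intro V _ _ A B a b₀ hB ha haB hb₀ hne
  have hind := PIV_ind hB ha haB hb₀ hne
  refine ⟨⟨?_, hind, ?_⟩, ?_⟩
  · intro x hx
    rcases mem_insert.1 hx with rfl | hx'
    · exact ha
    · exact hB.1 (mem_of_mem_erase hx')
  · intro x hx
    exact mem_Sp.2 ⟨_, PIV_expand hB ha haB hb₀ hne (sub_Sp hx)⟩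
  · intro z hz
    have hexp := PIV_expand hB ha haB hb₀ hne hz
    refine ⟨?_, fun b hb hbne => ?_⟩
    · have := co_unique hind hexp (mem_insert_self a _)
      rw [if_pos rfl] at this
      exact this
    · have hba : b ≠ a := by
        rintro rfl
        exact haB hb
      have := co_unique hind hexp (mem_insert_of_mem (mem_erase.2 ⟨hbne, hb⟩))
      rw [if_neg hba] at this
      exact this

end Pool.Agent.H33.EH
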